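import Pool.Agent.H143R3.BM12

/-!
# Survival among moving traps: the Pascal value is not attained at small intensity

Definitions used (in `Pool.Agent.H143R3`, files `BM1`, `BM6`, `BM8`, `BM9`):

* `gam d s`: the centred Gaussian law on `ℝ^d` with covariance `s` times the identity.
* `IsBM P X`: `X` is a standard Brownian motion in `ℝ^d` started at `0` under `P` (it starts at
  `0` and has continuous paths almost surely, has independent increments, and the increment over
  `[s, t]` has law `gam d (t - s)`).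
* `sausage W a t ω`: the Wiener sausage `⋃_{s ≤ t} B(W_s(ω), a)`.
* `count x A ω`: the number of indices `i` with `x i ω ∈ A`.
* `IsPoissonProcess P lam x`: the random points `x 0, x 1, …` form a Poisson point process on
  `ℝ^d` with intensity `lam` times Lebesgue measure.
* `TrapModel P lam X x Y`: `X` is a standard Brownian motion, `x` is a Poisson point process of
  intensity `lam`, the `Y i` are independent standard Brownian motions, and `X`, `x`, `Y` are
  independent.
* `trapField a x Y s ω`: the closed set field `K_s = ⋃_i closedBall (x_i + Y^i_s) a`.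
* `hitTime a X x Y ω`: the first time `T` at which `X_s ∈ K_s`, with value `∞` if this never
  happens.
-/

namespace Pool.Agent.Results.MP_fd77c3_pr.SmallIntensity

open MeasureTheory ProbabilityTheory Filter Topology
open scoped ENNReal NNReal
open Pool.Agent.H143R3.Sausage

universe u₁ u₂

lemma rate_le {p : ℝ≥0∞} {c t : ℝ} (ht : 0 < t) (hp : p ≤ ENNReal.ofReal (Real.exp (-(c * t)))) :
    (c : EReal) ≤ -(ENNReal.log p) / (t : EReal) := by
  rw [EReal.le_div_iff_mul_le (by exact_mod_cast ht) (EReal.coe_ne_top t), ← EReal.coe_mul]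
  have h1 := ENNReal.log_le_log hp
  rw [ENNReal.log_ofReal_of_pos (Real.exp_pos _), Real.log_exp] at h1
  have h2 := EReal.neg_le_neg_iff.mpr h1
  rwa [← EReal.coe_neg, neg_neg] at h2

/-- Let `d ≥ 3`, `a > 0`, and let `W` be a standard Brownian motion in `ℝ^d` with Wiener sausage
of radius `a`. Then `κ = lim E|W_0(t)| / t` exists and lies in `(0, ∞)`, and for every `ε > 0`
there is `lam₀ > 0` such that for every intensity `0 < lam < lam₀` the survival probability of a
Brownian particle among Brownian traps of intensity `lam` and radius `a` satisfies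
`P(T > t) ≤ exp (-(2 - ε) lam κ t)` for all large `t`. Consequently the annealed survival
exponent `L = - lim (1/t) log P(T > t)` satisfies `(2 - ε) lam κ ≤ L`, and in particular
`lam κ < L`. -/
theorem result {d : ℕ} (hd : 3 ≤ d) {a : ℝ} (ha : 0 < a)
    {Ω' : Type u₁} [MeasurableSpace Ω'] {P' : Measure Ω'} [IsProbabilityMeasure P']
    {W : ℝ≥0 → Ω' → EuclideanSpace ℝ (Fin d)} (hW : IsBM P' W) :
    ∃ κ : ℝ, 0 < κ ∧
      Tendsto (fun t : ℝ≥0 => (∫⁻ ω, volume (sausage W a t ω) ∂P') / t) atTop
        (𝓝 (ENNReal.ofReal κ)) ∧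
      ∀ ε : ℝ, 0 < ε → ∃ lam₀ : ℝ, 0 < lam₀ ∧ ∀ lam : ℝ≥0, 0 < lam → (lam : ℝ) < lam₀ →
        ∀ {Ω : Type u₂} [MeasurableSpace Ω] {P : Measure Ω} [IsProbabilityMeasure P]
          {X : ℝ≥0 → Ω → EuclideanSpace ℝ (Fin d)} {x : ℕ → Ω → EuclideanSpace ℝ (Fin d)}
          {Y : ℕ → ℝ≥0 → Ω → EuclideanSpace ℝ (Fin d)}, TrapModel P lam X x Y →
          (∀ᶠ t : ℝ≥0 in atTop, P {ω | (t : ℝ≥0∞) < hitTime a X x Y ω} ≤
            ENNReal.ofReal (Real.exp (-((2 - ε) * (lam * κ) * t)))) ∧
          ∀ L : ℝ, Tendsto (fun t : ℝ≥0 =>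
              -(ENNReal.log (P {ω | (t : ℝ≥0∞) < hitTime a X x Y ω})) / ((t : ℝ) : EReal)) atTop
              (𝓝 (L : EReal)) →
            (2 - ε) * (lam * κ) ≤ L ∧ lam * κ < L := by
  obtain ⟨κ, hκ⟩ := rate_exists hW a
  have hκ0 := rate_pos hd hW ha hκ
  refine ⟨κ, hκ0, hκ, fun ε hε => ?_⟩
  have hε' : 0 < min ε (1 / 2) := lt_min hε (by norm_num)
  obtain ⟨lam₀, hlam₀, hmain⟩ := eventual_bound.{u₁, u₂} hd ha hW hκ hε'
    ((min_le_right _ _).trans (by norm_num))
  refine ⟨lam₀, hlam₀, ?_⟩
  intro lam hlam0 hlam Ω _ P _ X x Y hMod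
  have hev := hmain lam hlam hMod
  have hlk : 0 < (lam : ℝ) * κ := mul_pos (by exact_mod_cast hlam0) hκ0
  have hcmp : (2 - ε) * (lam * κ) ≤ (2 - min ε (1 / 2)) * (lam * κ) := by
    gcongr
    exact min_le_left _ _
  have hcmp2 : lam * κ < (2 - min ε (1 / 2)) * (lam * κ) := by
    have : min ε (1 / 2) ≤ 1 / 2 := min_le_right _ _
    nlinarith
  constructor
  · filter_upwards [hev] with t ht
    refine ht.trans ?_
    apply ENNReal.ofReal_le_ofReal
    apply Real.exp_le_exp.mpr
    have := mul_le_mul_of_nonneg_right hcmp (NNReal.coe_nonneg t)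
    linarith
  · intro L hL
    have h1 : ((2 - min ε (1 / 2)) * (lam * κ) : ℝ) ≤ L := by
      have h2 : (((2 - min ε (1 / 2)) * (lam * κ) : ℝ) : EReal) ≤ (L : EReal) := by
        refine ge_of_tendsto hL ?_
        filter_upwards [hev, eventually_gt_atTop 0] with t ht ht0
        exact rate_le (by exact_mod_cast ht0) ht
      exact_mod_cast h2
    exact ⟨hcmp.trans h1, hcmp2.trans_le h1⟩

end Pool.Agent.Results.MP_fd77c3_pr.SmallIntensity
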